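import Mathlib
import Pool.Agent.Helper605.Final

set_option autoImplicit false

namespace Pool.Agent.Results.MP_23a7d9_al.SpectralConjecture

open Finset Filter Topology Pool.Agent.Helper605

/-- The spectral conjecture for all subrings `S` of the reals other than the integers: the Perron,
coefficient and trace conditions are sufficient for a finite list of nonzero complex numbers to be
the nonzero spectrum of a primitive matrix over `S`. (By the coefficient condition the power sums
are real numbers, so passing to real parts is harmless.) -/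
theorem result :
    ∀ S : Subring ℝ, S ≠ ⊥ → ∀ Λ : Multiset ℂ, (∀ z ∈ Λ, z ≠ 0) →
      (∃ r : ℝ, 0 < r ∧ Λ.count (r : ℂ) = 1 ∧ ∀ z ∈ Λ, z ≠ (r : ℂ) → ‖z‖ < r) →
      (∃ p : Polynomial ℝ, (∀ i, p.coeff i ∈ S) ∧
        p.map (algebraMap ℝ ℂ) = (Λ.map fun z => Polynomial.X - Polynomial.C z).prod) →
      (∀ k : ℕ, 0 < k → 0 ≤ (Λ.map fun z => z ^ k).sum.re ∧
        (0 < (Λ.map fun z => z ^ k).sum.re →
          ∀ n : ℕ, 0 < n → 0 < (Λ.map fun z => z ^ (n * k)).sum.re)) →
      ∃ (n : ℕ) (A : Matrix (Fin n) (Fin n) ℝ), (∀ i j, A i j ∈ S) ∧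
        (∀ i j, 0 ≤ A i j) ∧ (∃ m : ℕ, 0 < m ∧ ∀ i j, 0 < (A ^ m) i j) ∧
        (A.map (algebraMap ℝ ℂ)).charpoly.roots.filter (fun z => z ≠ 0) = Λ := by
  intro S hS Λ hΛ0 hPer hCo htr
  obtain ⟨r, hr, hcount, hPerron⟩ := hPer
  obtain ⟨P, hPS, hP⟩ := hCo
  have hrΛ : (r : ℂ) ∈ Λ := Multiset.count_pos.mp (by omega)
  set s := Λ.erase (r : ℂ) with hs
  have hΛ : Λ = (r : ℂ) ::ₘ s := (Multiset.cons_erase hrΛ).symm
  have hsr : ∀ z ∈ s, ‖z‖ < r := by
    intro z hz
    apply hPerron z (Multiset.mem_of_mem_erase hz)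
    rintro rfl
    have h1 := Multiset.count_pos.mpr hz
    rw [hs, Multiset.count_erase_self] at h1
    omega
  obtain ⟨θ, hθ0, hθ1, hθs⟩ := exists_theta s r hr hsr
  set N := Multiset.card Λ with hN
  set F := Polynomial.reflect N P with hF
  have hFC : F.map (algebraMap ℝ ℂ) = (Λ.map fun z => (1 - Polynomial.C z * Polynomial.X : Polynomial ℂ)).prod := by
    rw [hF, ← Polynomial.reflect_map, hP, hN, reflect_multiset]
  have hFS : ∀ k, F.coeff k ∈ S := by
    intro k
    rw [hF, Polynomial.coeff_reflect]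
    exact hPS _
  have hF0 : F.coeff 0 = 1 := by
    have h1 : (F.map (algebraMap ℝ ℂ)).coeff 0 = 1 := by
      rw [hFC, Polynomial.coeff_zero_multiset_prod]
      apply Multiset.prod_eq_one
      intro x hx
      rw [Multiset.mem_map] at hx
      obtain ⟨y, hy, rfl⟩ := hx
      rw [Multiset.mem_map] at hy
      obtain ⟨z, _, rfl⟩ := hy
      simp
    rw [Polynomial.coeff_map] at h1
    exact (algebraMap ℝ ℂ).injective (by rw [h1, map_one])
  set FF : PowerSeries ℝ := (F : PowerSeries ℝ) with hFF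
  have hFF0 : PowerSeries.coeff 0 FF = 1 := by rw [hFF, Polynomial.coeff_coe, hF0]
  have hFFc : PowerSeries.constantCoeff FF ≠ 0 := by
    rw [← PowerSeries.coeff_zero_eq_constantCoeff_apply, hFF0]; exact one_ne_zero
  have hFFS : InS S FF := by intro k; rw [hFF, Polynomial.coeff_coe]; exact hFS k
  set τ : PowerSeries ℝ := -(PowerSeries.X * PowerSeries.derivative ℝ FF) * FF⁻¹ with hτdef
  have hτ : IsLD FF τ := by
    unfold IsLD
    rw [hτdef]
    have h1 : FF⁻¹ * FF = 1 := PowerSeries.inv_mul_cancel _ hFFc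
    calc PowerSeries.X * PowerSeries.derivative ℝ FF
        = (PowerSeries.X * PowerSeries.derivative ℝ FF) * (FF⁻¹ * FF) := by rw [h1, mul_one]
      _ = _ := by ring
  have hτ0 : PowerSeries.coeff 0 τ = 0 := by
    rw [hτdef, PowerSeries.coeff_mul, Finset.Nat.antidiagonal_zero, Finset.sum_singleton, map_neg,
      PowerSeries.coeff_zero_X_mul]
    simp
  have hmapF : PowerSeries.map (algebraMap ℝ ℂ) FF =
      (Λ.map fun z => (1 - PowerSeries.C z * PowerSeries.X : PowerSeries ℂ)).prod := by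
    have h1 : PowerSeries.map (algebraMap ℝ ℂ) FF = ((F.map (algebraMap ℝ ℂ) : Polynomial ℂ) : PowerSeries ℂ) := by
      ext k
      rw [PowerSeries.coeff_map, hFF, Polynomial.coeff_coe, Polynomial.coeff_coe, Polynomial.coeff_map]
    rw [h1, hFC]
    have h2 : ∀ t : Multiset ℂ,
        (((t.map fun z => (1 - Polynomial.C z * Polynomial.X : Polynomial ℂ)).prod : Polynomial ℂ) : PowerSeries ℂ) =
        (t.map fun z => (1 - PowerSeries.C z * PowerSeries.X : PowerSeries ℂ)).prod := by
      intro t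
      induction t using Multiset.induction_on with
      | empty => simp
      | cons a t ih =>
        rw [Multiset.map_cons, Multiset.prod_cons, Multiset.map_cons, Multiset.prod_cons, Polynomial.coe_mul, ih]
        simp
    exact h2 Λ
  have hτk : ∀ k, 1 ≤ k → ((PowerSeries.coeff k τ : ℝ) : ℂ) = (Λ.map fun z => z ^ k).sum := by
    intro k hk
    have h1 := hτ.map_complex
    have h2 := isLD_multiset Λ
    rw [← hmapF] at h2
    have hne : PowerSeries.map (algebraMap ℝ ℂ) FF ≠ 0 := by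
      intro h
      have h3 := congrArg (PowerSeries.coeff 0) h
      rw [PowerSeries.coeff_map, hFF0] at h3
      simp at h3
    have h3 := congrArg (PowerSeries.coeff k) (h1.ld_unique h2 hne)
    rw [PowerSeries.coeff_map, PowerSeries.coeff_mk, if_neg (by omega)] at h3
    exact h3
  have hτre : ∀ k, 1 ≤ k → PowerSeries.coeff k τ = (Λ.map fun z => z ^ k).sum.re := by
    intro k hk
    rw [← hτk k hk, Complex.ofReal_re]
  have hτnn : ∀ k, 0 ≤ PowerSeries.coeff k τ := by
    intro k
    rcases Nat.eq_zero_or_pos k with h | h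
    · rw [h, hτ0]
    · rw [hτre k h]; exact (htr k h).1
  have hτmul : ∀ k, 1 ≤ k → 0 < PowerSeries.coeff k τ → ∀ n, 1 ≤ n → 0 < PowerSeries.coeff (n * k) τ := by
    intro k hk hpos n hn
    rw [hτre k hk] at hpos
    rw [hτre (n * k) (Nat.mul_pos hn hk)]
    exact (htr k hk).2 hpos n hn
  set c : ℝ := (Multiset.card s : ℝ) with hc
  have hc0 : 0 ≤ c := by positivity
  have hτbound : ∀ k, 1 ≤ k → |PowerSeries.coeff k τ - r ^ k| ≤ c * (θ * r) ^ k := by
    intro k hk
    have h1 : ((PowerSeries.coeff k τ - r ^ k : ℝ) : ℂ) = (s.map fun z => z ^ k).sum := by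
      push_cast
      rw [hτk k hk, hΛ, Multiset.map_cons, Multiset.sum_cons]
      ring
    have h2 : |PowerSeries.coeff k τ - r ^ k| = ‖(s.map fun z => z ^ k).sum‖ := by
      rw [← h1, Complex.norm_real, Real.norm_eq_abs]
    rw [h2]
    have h3 : ∀ t : Multiset ℂ, (∀ z ∈ t, ‖z‖ ≤ θ * r) →
        ‖(t.map fun z => z ^ k).sum‖ ≤ (Multiset.card t : ℝ) * (θ * r) ^ k := by
      intro t
      induction t using Multiset.induction_on with
      | empty => intro _; simp
      | cons a t ih =>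
        intro ht
        rw [Multiset.map_cons, Multiset.sum_cons, Multiset.card_cons]
        have h4 := ih (fun z hz => ht z (Multiset.mem_cons_of_mem hz))
        have h5 : ‖a ^ k‖ ≤ (θ * r) ^ k := by
          rw [norm_pow]
          exact pow_le_pow_left₀ (norm_nonneg _) (ht a (Multiset.mem_cons_self a t)) k
        refine (norm_add_le _ _).trans ?_
        push_cast
        linarith
    exact h3 s hθs
  -- choice of `M`
  obtain ⟨θ1, θ2, hθθ1, hθ2p, hθ21, hpar⟩ := params (c + 1) θ hθ0 hθ1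
  have hη : 1 < 1 / θ := (one_lt_div hθ0).mpr hθ1
  have t2 : Tendsto (fun M : ℕ => (1 / θ) ^ (M + 1)) atTop atTop :=
    (tendsto_pow_atTop_atTop_of_one_lt hη).comp (tendsto_add_atTop_nat 1)
  obtain ⟨M, ⟨⟨hM1, hM2, hM3⟩, hM4⟩, hM5⟩ :=
    ((hpar.and (t2.eventually (eventually_gt_atTop 8))).and (eventually_ge_atTop 2)).exists
  -- choice of `ω`
  set T := ∑ i ∈ Icc 1 M, PowerSeries.coeff i τ with hT
  have hθr : 0 < θ * r := by positivity
  have hlin : ∀ b c' : ℝ, 0 < c' → ∀ᶠ ω in 𝓝[>] (0 : ℝ), ω * b < c' := by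
    intro b c' hc'
    have h1 : Tendsto (fun ω : ℝ => ω * b) (𝓝[>] (0 : ℝ)) (𝓝 (0 * b)) :=
      ((continuous_id.mul continuous_const).tendsto 0).mono_left nhdsWithin_le_nhds
    rw [zero_mul] at h1
    exact h1.eventually (gt_mem_nhds hc')
  have hfin : ∀ᶠ ω in 𝓝[>] (0 : ℝ), ∀ k ∈ range (M + 1), 0 < PowerSeries.coeff k τ → ω * T < PowerSeries.coeff k τ := by
    rw [Filter.eventually_all_finset]
    intro k _
    by_cases h : 0 < PowerSeries.coeff k τ
    · filter_upwards [hlin T _ h] with ω hω _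
      exact hω
    · exact Filter.Eventually.of_forall fun ω h' => absurd h' h
  obtain ⟨ω, ⟨⟨⟨⟨⟨hω1, hω2⟩, hω3⟩, hω4⟩, hω5⟩, hω0⟩⟩ :=
    (((((hlin 1 1 one_pos).and hfin).and (hlin 1 (θ * r) hθr)).and
      (hlin T ((θ * r) ^ (M + 1)) (by positivity))).and (hlin (2 / r) 1 one_pos)).and
      self_mem_nhdsWithin |>.exists
  rw [mul_one] at hω1 hω3
  have hω0' : 0 < ω := hω0
  obtain ⟨l, hl, hlk⟩ := kill S hS FF hFFS hFF0 τ hτ hτ0 hτnn hτmul M ω hω0' hω1.le
    (fun k hk hpos => hω2 k (Finset.mem_range.mpr (by omega)) hpos) M le_rfl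
  have hl1 : ∀ p ∈ l, 1 ≤ p.1 := fun p hp => (hl p hp).1
  -- traces of `l` beyond `M`
  have hjbound : ∀ k, M < k → jsum l k ≤ (θ * r) ^ k := by
    intro k hk
    have h1 := jsum_le M k hk ω hω0' hω1.le l
      (fun p hp => ⟨(hl p hp).1, (hl p hp).2.1, (hl p hp).2.2.2.1, (hl p hp).2.2.2.2.1⟩)
    have h2 := wsum_le M l (fun p hp => ⟨(hl p hp).1, (hl p hp).2.1, (hl p hp).2.2.2.1⟩)
    have h3 : ∑ k ∈ Icc 1 M, jsum l k = T := by
      apply Finset.sum_congr rfl
      intro k hk
      rw [Finset.mem_Icc] at hk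
      exact hlk k hk.1 hk.2
    rw [h3] at h2
    calc jsum l k ≤ ω ^ (k - M) * (l.map fun p => (p.1 : ℝ) * p.2).sum := h1
      _ ≤ ω ^ (k - M) * T := mul_le_mul_of_nonneg_left h2 (by positivity)
      _ = ω ^ (k - M - 1) * (ω * T) := by
          rw [← mul_assoc, ← pow_succ]
          congr 2
          omega
      _ ≤ (θ * r) ^ (k - M - 1) * (θ * r) ^ (M + 1) := by
          apply mul_le_mul (pow_le_pow_left₀ hω0'.le hω3.le _) hω4.le _ (by positivity)
          apply mul_nonneg hω0'.le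
          exact Finset.sum_nonneg fun i _ => hτnn i
      _ = (θ * r) ^ k := by rw [← pow_add]; congr 1; omega
  have hjnn : ∀ k, 0 ≤ jsum l k := jsum_nonneg l (fun p hp => (hl p hp).2.2.2.1)
  have hj0 : jsum l 0 = 0 := by
    apply List.sum_eq_zero
    intro y hy
    rw [List.mem_map] at hy
    obtain ⟨p, hp, rfl⟩ := hy
    rw [jterm, if_neg (by simp)]
  -- normalised series
  have hJ := Jprod_isLD l hl1
  have hJ0 := Jprod_coeff_zero l hl1
  have hJc : PowerSeries.constantCoeff (Jprod l) ≠ 0 := by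
    rw [← PowerSeries.coeff_zero_eq_constantCoeff_apply, hJ0]; exact one_ne_zero
  have hJne : Jprod l ≠ 0 := by
    intro h
    rw [h] at hJ0
    simp at hJ0
  set F1 := FF * (Jprod l)⁻¹ with hF1
  have hJF1 : Jprod l * F1 = FF := by
    rw [hF1, mul_comm FF, ← mul_assoc, PowerSeries.mul_inv_cancel _ hJc, one_mul]
  have hF1LD : IsLD F1 (τ - PowerSeries.mk (jsum l)) := by
    apply hJ.cancel _ hJne
    rw [hJF1]; exact hτ
  have hF10 : PowerSeries.coeff 0 F1 = 1 := by
    have h1 := congrArg (PowerSeries.coeff 0) hJF1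
    rw [PowerSeries.coeff_mul, Finset.Nat.antidiagonal_zero, Finset.sum_singleton, hJ0, one_mul, hFF0] at h1
    exact h1
  have hrinv : 0 < r⁻¹ := by positivity
  set F1h := PowerSeries.rescale r⁻¹ F1 with hF1h
  have hF1hLD := hF1LD.rescale r⁻¹
  have hF1h0 : PowerSeries.coeff 0 F1h = 1 := by
    rw [hF1h, PowerSeries.coeff_rescale, hF10]; simp
  -- choice of `q`
  have hex : ∀ j : ℕ, ∃ v ∈ S, (M + 1 ≤ j → r ^ j / (4 * j) < v ∧ v < r ^ j / (2 * j)) := by
    intro j
    by_cases hj : M + 1 ≤ j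
    · have hj0 : (0 : ℝ) < j := by exact_mod_cast (by omega : 0 < j)
      have h1 : r ^ j / (4 * (j : ℝ)) < r ^ j / (2 * (j : ℝ)) := by
        apply div_lt_div_of_pos_left (by positivity) (by positivity)
        linarith
      obtain ⟨v, hv, h2, h3⟩ := subring_between S hS _ _ h1
      exact ⟨v, hv, fun _ => ⟨h2, h3⟩⟩
    · exact ⟨0, S.zero_mem, fun h => absurd h hj⟩
  choose v hvS hv using hex
  set q : Polynomial ℝ := ∑ j ∈ Icc (M + 1) (2 * M + 1), Polynomial.C (v j) * Polynomial.X ^ j with hq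
  have hqcoeff : ∀ k, q.coeff k = if k ∈ Icc (M + 1) (2 * M + 1) then v k else 0 := by
    intro k
    rw [hq, Polynomial.finsetSum_coeff]
    simp only [Polynomial.coeff_C_mul, Polynomial.coeff_X_pow, mul_ite, mul_one, mul_zero]
    rw [Finset.sum_ite_eq]
  have hvpos : ∀ j, M + 1 ≤ j → 0 < v j := by
    intro j hj
    have hj0 : (0 : ℝ) < j := by exact_mod_cast (by omega : 0 < j)
    have := (hv j hj).1
    have h2 : 0 < r ^ j / (4 * (j : ℝ)) := by positivity
    linarith
  have hqS : ∀ k, q.coeff k ∈ S := by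
    intro k
    rw [hqcoeff]
    split_ifs
    · exact hvS k
    · exact S.zero_mem
  have hqnn : ∀ k, 0 ≤ q.coeff k := by
    intro k
    rw [hqcoeff]
    split_ifs with h
    · rw [Finset.mem_Icc] at h
      exact (hvpos k h.1).le
    · exact le_rfl
  have hq0 : q.coeff 0 = 0 := by
    rw [hqcoeff, if_neg (by rw [Finset.mem_Icc]; omega)]
  have hqdeg : q.natDegree ≤ 2 * M + 1 := by
    rw [Polynomial.natDegree_le_iff_coeff_eq_zero]
    intro k hk
    rw [hqcoeff, if_neg (by rw [Finset.mem_Icc]; omega)]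
  have hqL : 0 < q.coeff (2 * M + 1) := by
    rw [hqcoeff, if_pos (by rw [Finset.mem_Icc]; omega)]
    exact hvpos _ (by omega)
  set qs : PowerSeries ℝ := (q : PowerSeries ℝ) with hqs
  set qh := PowerSeries.rescale r⁻¹ qs with hqh
  have hqhc : ∀ j, PowerSeries.coeff j qh = r⁻¹ ^ j * q.coeff j := by
    intro j
    rw [hqh, PowerSeries.coeff_rescale, hqs, Polynomial.coeff_coe]
  have hrj : ∀ j : ℕ, r⁻¹ ^ j * r ^ j = 1 := by
    intro j
    rw [← mul_pow, inv_mul_cancel₀ hr.ne', one_pow]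
  have hqadm : QAdm M qh := by
    refine ⟨?_, ?_, ?_⟩
    · intro j hj
      rw [hqhc, hqcoeff, if_neg (by rw [Finset.mem_Icc]; omega), mul_zero]
    · intro j hj1 hj2
      rw [hqhc, hqcoeff, if_pos (by rw [Finset.mem_Icc]; omega)]
      have h1 := (hv j hj1).1.le
      calc 1 / (4 * (j : ℝ)) = r⁻¹ ^ j * (r ^ j / (4 * (j : ℝ))) := by
            rw [← mul_div_assoc, hrj]
        _ ≤ r⁻¹ ^ j * v j := mul_le_mul_of_nonneg_left h1 (by positivity)
    · intro j hj1 hj2
      rw [hqhc, hqcoeff, if_pos (by rw [Finset.mem_Icc]; omega)]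
      have h1 := (hv j hj1).2.le
      calc r⁻¹ ^ j * v j ≤ r⁻¹ ^ j * (r ^ j / (2 * (j : ℝ))) := mul_le_mul_of_nonneg_left h1 (by positivity)
        _ = 1 / (2 * (j : ℝ)) := by rw [← mul_div_assoc, hrj]
  have hq1c : PowerSeries.constantCoeff (1 - qs) ≠ 0 := by
    rw [map_sub, ← PowerSeries.coeff_zero_eq_constantCoeff_apply, ← PowerSeries.coeff_zero_eq_constantCoeff_apply,
      hqs, Polynomial.coeff_coe, hq0]
    simp
  have hresq : (1 - qh)⁻¹ = PowerSeries.rescale r⁻¹ (1 - qs)⁻¹ := by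
    rw [rescale_inv _ _ hq1c, map_sub, map_one]
  -- the two analytic facts
  have hnegh := neg_coeffs M hM5 (c + 1) θ θ1 θ2 (by linarith) hθ0 hθθ1 hθ2p hθ21 hM1 hM2 hM3 F1h _ hF1h0 hF1hLD
    (by
      intro j hj
      rw [PowerSeries.coeff_rescale, map_sub, PowerSeries.coeff_mk]
      rcases Nat.eq_zero_or_pos j with h | h
      · rw [h, hτ0, hj0]; ring
      · rw [hlk j h hj]; ring)
    (by
      intro j hj
      rw [PowerSeries.coeff_rescale, map_sub, PowerSeries.coeff_mk]
      have h1 := hτbound j (by omega)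
      have h2 := hjbound j hj
      have h3 := hjnn j
      have h4 : r⁻¹ ^ j * (PowerSeries.coeff j τ - jsum l j) - 1 =
          r⁻¹ ^ j * ((PowerSeries.coeff j τ - r ^ j) - jsum l j) := by
        rw [mul_sub, mul_sub, mul_sub, hrj]; ring
      rw [h4, abs_mul, abs_of_pos (show 0 < r⁻¹ ^ j by positivity)]
      have h5 : |(PowerSeries.coeff j τ - r ^ j) - jsum l j| ≤ (c + 1) * (θ * r) ^ j := by
        calc |(PowerSeries.coeff j τ - r ^ j) - jsum l j| ≤ |PowerSeries.coeff j τ - r ^ j| + |jsum l j| :=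
              abs_sub _ _
          _ ≤ c * (θ * r) ^ j + (θ * r) ^ j := by
              rw [abs_of_nonneg h3]; linarith
          _ = (c + 1) * (θ * r) ^ j := by ring
      calc r⁻¹ ^ j * |(PowerSeries.coeff j τ - r ^ j) - jsum l j| ≤ r⁻¹ ^ j * ((c + 1) * (θ * r) ^ j) :=
            mul_le_mul_of_nonneg_left h5 (by positivity)
        _ = (c + 1) * θ ^ j * (r⁻¹ ^ j * r ^ j) := by rw [mul_pow]; ring
        _ = (c + 1) * θ ^ j := by rw [hrj, mul_one])
    qh hqadm
  set Fh : Polynomial ℝ := F.comp (Polynomial.C r⁻¹ * Polynomial.X) with hFh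
  have hFhs : (Fh : PowerSeries ℝ) = PowerSeries.rescale r⁻¹ FF := by
    ext k
    rw [Polynomial.coeff_coe, hFh, Polynomial.comp_C_mul_X_coeff, PowerSeries.coeff_rescale, hFF, Polynomial.coeff_coe]
    ring
  obtain ⟨x, hx1, hx2, hevx⟩ := eventual_neg M hM5 qh hqadm Fh (1 / θ - 1) (by linarith)
    (by
      intro x hx1 hx2
      rw [hFh, Polynomial.eval_comp, Polynomial.eval_mul, Polynomial.eval_C, Polynomial.eval_X]
      apply eval_neg s r θ hr hθ0 hθs F
      · rw [hFC, hΛ]
      · rw [one_div]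
        nlinarith
      · have h1 : x < 1 / θ := by linarith
        calc r⁻¹ * x < r⁻¹ * (1 / θ) := mul_lt_mul_of_pos_left h1 hrinv
          _ = 1 / (θ * r) := by field_simp)
    (by
      have : 1 + (1 / θ - 1) = 1 / θ := by ring
      rw [this]; exact hM4)
  have hx0 : 0 < x := by linarith
  have hev : EvNeg (x / r) (FF * (1 - qs)⁻¹) := by
    obtain ⟨R, hR, h⟩ := hevx
    refine ⟨R, hR, ?_⟩
    filter_upwards [h] with k hk
    rw [hFhs, hresq, ← map_mul, PowerSeries.coeff_rescale] at hk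
    calc PowerSeries.coeff k (FF * (1 - qs)⁻¹) * (x / r) ^ k
        = r⁻¹ ^ k * PowerSeries.coeff k (FF * (1 - qs)⁻¹) * x ^ k := by
          rw [div_pow, inv_pow]; field_simp
      _ ≤ -R := hk
  obtain ⟨n, A, hAS, hAprim, hAchar, hdeg⟩ := reduction S F hFS hF0 q (2 * M + 1) (by omega) hqS hqnn hq0 hqdeg hqL
    l (x / r) (by positivity)
    (by
      intro p hp
      obtain ⟨a1, a2, a3, a4, a5, a6⟩ := hl p hp
      refine ⟨a1, a3, a4, ?_⟩
      calc p.2 * (x / r) ^ p.1 ≤ ω ^ p.1 * (x / r) ^ p.1 := mul_le_mul_of_nonneg_right a5 (by positivity)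
        _ = (ω * (x / r)) ^ p.1 := by rw [mul_pow]
        _ < 1 := by
          apply pow_lt_one₀ (by positivity) _ (by omega)
          calc ω * (x / r) ≤ ω * (2 / r) := by
                apply mul_le_mul_of_nonneg_left _ hω0'.le
                exact div_le_div_of_nonneg_right hx2 hr.le
            _ < 1 := hω5)
    hev
    (by
      intro k hk
      have h1 := hnegh k hk
      rw [hF1h, hresq, ← map_mul, PowerSeries.coeff_rescale] at h1
      have h2 : FF * (1 - qs)⁻¹ * (Jprod l)⁻¹ = F1 * (1 - qs)⁻¹ := by rw [hF1]; ring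
      have h3 : PowerSeries.coeff k (FF * (1 - qs)⁻¹ * (Jprod l)⁻¹) ≤ 0 := by
        rw [h2]
        have h4 : 0 < r⁻¹ ^ k := by positivity
        by_contra hcon
        push Not at hcon
        have := mul_pos h4 hcon
        linarith
      exact h3)
  -- the characteristic polynomial
  refine ⟨n, A, hAS, hAprim.nonneg, hAprim.exists_pos_pow, ?_⟩
  have hPdeg : P.natDegree = N := by
    have h1 : (P.map (algebraMap ℝ ℂ)).natDegree = N := by
      rw [hP, Polynomial.natDegree_multiset_prod_X_sub_C_eq_card]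
    rw [← h1, Polynomial.natDegree_map]
  have hP0 : P.coeff 0 ≠ 0 := by
    have h1 : (P.map (algebraMap ℝ ℂ)).coeff 0 ≠ 0 := by
      rw [hP, Polynomial.coeff_zero_multiset_prod]
      apply Multiset.prod_ne_zero
      intro h0
      rw [Multiset.mem_map] at h0
      obtain ⟨y, hy, hy0⟩ := h0
      rw [Multiset.mem_map] at hy
      obtain ⟨z, hz, rfl⟩ := hy
      simp at hy0
      exact hΛ0 z hz hy0
    intro h
    apply h1
    rw [Polynomial.coeff_map, h, map_zero]
  have hFdeg : F.natDegree = N := by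
    apply le_antisymm
    · rw [Polynomial.natDegree_le_iff_coeff_eq_zero]
      intro k hk
      rw [hF, Polynomial.coeff_reflect, Polynomial.revAt_eq_self_of_lt hk]
      exact Polynomial.coeff_eq_zero_of_natDegree_lt (by omega)
    · apply Polynomial.le_natDegree_of_ne_zero
      rw [hF, Polynomial.coeff_reflect, Polynomial.revAt_le le_rfl, Nat.sub_self]
      exact hP0
  have hNn : N ≤ n := hFdeg ▸ hdeg
  have hrefl : Polynomial.reflect n F = P * Polynomial.X ^ (n - N) := by
    have h1 := Polynomial.reflect_mul F (1 : Polynomial ℝ) (F := N) (G := n - N) (by omega) (by simp)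
    rw [mul_one, Polynomial.reflect_one, show N + (n - N) = n by omega] at h1
    rw [h1, hF, Polynomial.reflect_reflect]
  have hAC : (A.map (algebraMap ℝ ℂ)).charpoly = (Λ.map fun z => Polynomial.X - Polynomial.C z).prod *
      Polynomial.X ^ (n - N) := by
    rw [Matrix.charpoly_map, hAchar, hrefl, Polynomial.map_mul, hP, Polynomial.map_pow, Polynomial.map_X]
  rw [hAC, Polynomial.roots_mul, Polynomial.roots_multiset_prod_X_sub_C, Polynomial.roots_pow, Polynomial.roots_X,
    Multiset.filter_add]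
  · have h1 : (Λ.filter fun z => z ≠ 0) = Λ := Multiset.filter_eq_self.mpr hΛ0
    have h2 : (((n - N) • ({0} : Multiset ℂ)).filter fun z => z ≠ 0) = 0 := by
      rw [Multiset.filter_eq_nil]
      intro a ha
      rw [Multiset.mem_nsmul] at ha
      simpa using ha.2
    rw [h1, h2, add_zero]
  · apply mul_ne_zero
    · exact (Polynomial.monic_multisetProd_X_sub_C Λ).ne_zero
    · exact pow_ne_zero _ Polynomial.X_ne_zero

end Pool.Agent.Results.MP_23a7d9_al.SpectralConjecture
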